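import Mathlib

/-!
# Prime right weakly regular rings: ideals and primitivity
-/

open MulOpposite

namespace Pool.Agent.VRing

universe u v

section Ideals

variable {F : Type v} {R : Type u} [Field F] [Ring R] [Algebra F R]

/-- The multiplication algebra of `R` over `F`. -/
def multAlg (F : Type v) (R : Type u) [Field F] [Ring R] [Algebra F R] :
    Subalgebra F (Module.End F R) :=
  Algebra.adjoin F (Set.range (LinearMap.mulLeft F (A := R)) ∪
    Set.range (LinearMap.mulRight F (A := R)))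

lemma mulLeft_mem (a : R) : LinearMap.mulLeft F a ∈ multAlg F R :=
  Algebra.subset_adjoin (Or.inl ⟨a, rfl⟩)

lemma mulRight_mem (a : R) : LinearMap.mulRight F a ∈ multAlg F R :=
  Algebra.subset_adjoin (Or.inr ⟨a, rfl⟩)

lemma smul_mem_twoSided (J : TwoSidedIdeal R) (c : F) {x : R} (hx : x ∈ J) : c • x ∈ J := by
  rw [Algebra.smul_def]
  exact J.mul_mem_left _ _ hx

lemma map_mem {μ : Module.End F R} (hμ : μ ∈ multAlg F R) :
    ∀ (J : TwoSidedIdeal R) {x : R}, x ∈ J → μ x ∈ J := by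
  induction hμ using Algebra.adjoin_induction with
  | mem μ hμ =>
    intro J x hx
    rcases hμ with ⟨a, rfl⟩ | ⟨a, rfl⟩
    · exact J.mul_mem_left _ _ hx
    · exact J.mul_mem_right _ _ hx
  | algebraMap c =>
    intro J x hx
    simpa [Algebra.algebraMap_eq_smul_one] using smul_mem_twoSided J c hx
  | add μ ν _ _ h1 h2 =>
    intro J x hx
    exact J.add_mem (h1 J hx) (h2 J hx)
  | mul μ ν _ _ h1 h2 =>
    intro J x hx
    exact h1 J (h2 J hx)

/-- The two-sided ideal `{μ v}`. -/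
def orbit (F : Type v) {R : Type u} [Field F] [Ring R] [Algebra F R] (v : R) : TwoSidedIdeal R :=
  TwoSidedIdeal.mk' {x | ∃ μ ∈ multAlg F R, μ v = x}
    ⟨0, zero_mem _, rfl⟩
    (by
      rintro _ _ ⟨μ, hμ, rfl⟩ ⟨ν, hν, rfl⟩
      exact ⟨μ + ν, add_mem hμ hν, rfl⟩)
    (by
      rintro _ ⟨μ, hμ, rfl⟩
      exact ⟨-μ, neg_mem hμ, rfl⟩)
    (by
      rintro a _ ⟨μ, hμ, rfl⟩
      exact ⟨LinearMap.mulLeft F a * μ, mul_mem (mulLeft_mem a) hμ, rfl⟩)
    (by
      rintro _ a ⟨μ, hμ, rfl⟩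
      exact ⟨LinearMap.mulRight F a * μ, mul_mem (mulRight_mem a) hμ, rfl⟩)

lemma mem_orbit {v x : R} : x ∈ orbit F v ↔ ∃ μ ∈ multAlg F R, μ v = x := by
  simp [orbit]

lemma self_mem_orbit (v : R) : v ∈ orbit F v := mem_orbit.mpr ⟨1, one_mem _, rfl⟩

lemma orbit_le {v : R} {J : TwoSidedIdeal R} (hv : v ∈ J) : orbit F v ≤ J := by
  intro x hx
  obtain ⟨μ, hμ, rfl⟩ := mem_orbit.mp hx
  exact map_mem hμ J hv

/-- Every two-sided ideal is idempotent. -/
def FullyIdempotent (R : Type u) [Ring R] : Prop :=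
  ∀ I : TwoSidedIdeal R, ∀ x ∈ I, x ∈ AddSubgroup.closure {z : R | ∃ a ∈ I, ∃ b ∈ I, z = a * b}

/-- If `ann (v₀) ⊆ ann (v)` in the multiplication algebra and `v ≠ 0`, then `(v₀) ≤ (v)`. -/
lemma orbit_le_orbit (hprime : ∀ a b : R, (∀ r : R, a * r * b = 0) → a = 0 ∨ b = 0)
    (hidem : FullyIdempotent R) {v₀ v : R} (hv : v ≠ 0)
    (hann : ∀ μ ∈ multAlg F R, μ v₀ = 0 → μ v = 0) : orbit F v₀ ≤ orbit F v := by
  -- well-definedness
  have hwd : ∀ μ ∈ multAlg F R, ∀ ν ∈ multAlg F R, μ v₀ = ν v₀ → μ v = ν v := by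
    intro μ hμ ν hν h
    have := hann (μ - ν) (sub_mem hμ hν) (by simp [h])
    simpa [sub_eq_zero] using this
  -- injectivity
  have hinj0 : ∀ μ ∈ multAlg F R, μ v = 0 → μ v₀ = 0 := by
    intro μ hμ h
    have hkey : ∀ r : R, v * r * μ v₀ = 0 := by
      intro r
      have h1 := hwd (LinearMap.mulLeft F (v₀ * r) * μ) (mul_mem (mulLeft_mem _) hμ)
        (LinearMap.mulRight F (μ v₀) * LinearMap.mulRight F r)
        (mul_mem (mulRight_mem _) (mulRight_mem _)) (by simp [mul_assoc])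
      simpa [h] using h1.symm
    exact (hprime _ _ hkey).resolve_left hv
  have hinj : ∀ μ ∈ multAlg F R, ∀ ν ∈ multAlg F R, μ v = ν v → μ v₀ = ν v₀ := by
    intro μ hμ ν hν h
    have := hinj0 (μ - ν) (sub_mem hμ hν) (by simp [h])
    simpa [sub_eq_zero] using this
  -- elements of the square of `(v)`
  have hcl : ∀ y ∈ AddSubgroup.closure {z : R | ∃ a ∈ orbit F v, ∃ b ∈ orbit F v, z = a * b},
      ∃ ν ∈ multAlg F R, ν v = y ∧ ν v₀ ∈ orbit F v := by
    intro y hy
    induction hy using AddSubgroup.closure_induction with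
    | mem y hy =>
      obtain ⟨a, ha, b, hb, rfl⟩ := hy
      obtain ⟨μ, hμ, rfl⟩ := mem_orbit.mp ha
      refine ⟨LinearMap.mulRight F b * μ, mul_mem (mulRight_mem _) hμ, by simp, ?_⟩
      simpa using (orbit F v).mul_mem_left (μ v₀) b hb
    | zero => exact ⟨0, zero_mem _, by simp, by simp⟩
    | add x y _ _ hx hy =>
      obtain ⟨μ, hμ, h1, h2⟩ := hx
      obtain ⟨ν, hν, h3, h4⟩ := hy
      exact ⟨μ + ν, add_mem hμ hν, by simp [h1, h3], by simpa using (orbit F v).add_mem h2 h4⟩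
    | neg x _ hx =>
      obtain ⟨μ, hμ, h1, h2⟩ := hx
      exact ⟨-μ, neg_mem hμ, by simp [h1], by simpa using (orbit F v).neg_mem h2⟩
  intro x hx
  obtain ⟨μ, hμ, rfl⟩ := mem_orbit.mp hx
  have hy : μ v ∈ orbit F v := mem_orbit.mpr ⟨μ, hμ, rfl⟩
  obtain ⟨ν, hν, h1, h2⟩ := hcl _ (hidem _ _ hy)
  rw [hinj μ hμ ν hν h1.symm]
  exact h2

/-- In a prime ring the intersection of two nonzero two-sided ideals is nonzero. -/
lemma inf_ne_bot (hprime : ∀ a b : R, (∀ r : R, a * r * b = 0) → a = 0 ∨ b = 0)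
    {I J : TwoSidedIdeal R} (hI : I ≠ ⊥) (hJ : J ≠ ⊥) : I ⊓ J ≠ ⊥ := by
  have hex : ∀ K : TwoSidedIdeal R, K ≠ ⊥ → ∃ x ∈ K, x ≠ 0 := by
    intro K hK
    by_contra hcon
    push Not at hcon
    apply hK
    ext x
    rw [TwoSidedIdeal.mem_bot]
    exact ⟨fun hx => hcon x hx, fun hx => hx ▸ K.zero_mem⟩
  obtain ⟨a, ha, ha0⟩ := hex I hI
  obtain ⟨b, hb, hb0⟩ := hex J hJ
  have : ∃ r, a * r * b ≠ 0 := by
    by_contra hcon
    push Not at hcon
    rcases hprime a b hcon with h | h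
    · exact ha0 h
    · exact hb0 h
  obtain ⟨r, hr⟩ := this
  intro hbot
  apply hr
  rw [← TwoSidedIdeal.mem_bot, ← hbot, TwoSidedIdeal.mem_inf]
  exact ⟨I.mul_mem_right _ _ (I.mul_mem_right _ _ ha), J.mul_mem_left _ _ hb⟩

/-- For every finite-dimensional subspace `V` of a prime fully idempotent algebra there is a
nonzero ideal contained in every ideal generated by a nonzero element of `V`. -/
theorem exists_common_ideal (hprime : ∀ a b : R, (∀ r : R, a * r * b = 0) → a = 0 ∨ b = 0)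
    (hidem : FullyIdempotent R) [Nontrivial R] :
    ∀ (n : ℕ) (V : Submodule F R) [FiniteDimensional F V], Module.finrank F V ≤ n →
      ∃ J : TwoSidedIdeal R, J ≠ ⊥ ∧ ∀ v ∈ V, v ≠ 0 → J ≤ orbit F v := by
  intro n
  induction n with
  | zero =>
    intro V _ hV
    have hV0 : V = ⊥ := by
      rw [← Submodule.finrank_eq_zero (R := F)]; omega
    refine ⟨⊤, ?_, ?_⟩
    · intro h
      have : (1 : R) ∈ (⊥ : TwoSidedIdeal R) := by rw [← h]; trivial
      rw [TwoSidedIdeal.mem_bot] at this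
      exact one_ne_zero this
    · intro v hv hv0
      rw [hV0, Submodule.mem_bot] at hv
      exact absurd hv hv0
  | succ n ih =>
    intro V _ hV
    by_cases hV0 : V = ⊥
    · exact ih V (by rw [hV0, finrank_bot]; omega)
    · obtain ⟨v₀, hv₀V, hv₀⟩ := Submodule.exists_mem_ne_zero_of_ne_bot hV0
      by_cases hcase : ∀ μ ∈ multAlg F R, μ v₀ = 0 → ∀ v ∈ V, μ v = 0
      · refine ⟨orbit F v₀, ?_, ?_⟩
        · intro h
          have := self_mem_orbit (F := F) v₀
          rw [h, TwoSidedIdeal.mem_bot] at this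
          exact hv₀ this
        · intro v hv hv0
          exact orbit_le_orbit hprime hidem hv0 (fun μ hμ h => hcase μ hμ h v hv)
      · push Not at hcase
        obtain ⟨μ, hμ, hμ0, v₁, hv₁V, hv₁⟩ := hcase
        let f : V →ₗ[F] R := μ.comp V.subtype
        have hrn := LinearMap.finrank_range_add_finrank_ker f
        have hker : 1 ≤ Module.finrank F (LinearMap.ker f) := by
          rw [Submodule.one_le_finrank_iff]
          intro h
          apply hv₀
          have h1 : (⟨v₀, hv₀V⟩ : V) ∈ LinearMap.ker f := by simpa [f] using hμ0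
          rw [h, Submodule.mem_bot] at h1
          simpa using congrArg Subtype.val h1
        have hran : 1 ≤ Module.finrank F (LinearMap.range f) := by
          rw [Submodule.one_le_finrank_iff]
          intro h
          apply hv₁
          have h1 : μ v₁ ∈ LinearMap.range f := ⟨⟨v₁, hv₁V⟩, rfl⟩
          rwa [h, Submodule.mem_bot] at h1
        have hfr : Module.finrank F ((LinearMap.ker f).map V.subtype) ≤
            Module.finrank F (LinearMap.ker f) :=
          Submodule.finrank_map_le _ _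
        obtain ⟨J₁, hJ₁, hJ₁'⟩ := ih ((LinearMap.ker f).map V.subtype) (by omega)
        obtain ⟨J₂, hJ₂, hJ₂'⟩ := ih (LinearMap.range f) (by omega)
        refine ⟨J₁ ⊓ J₂, inf_ne_bot hprime hJ₁ hJ₂, fun v hv hv0 => ?_⟩
        by_cases hμv : μ v = 0
        · exact inf_le_left.trans (hJ₁' v ⟨⟨v, hv⟩, by simpa [f] using hμv, rfl⟩ hv0)
        · refine inf_le_right.trans ((hJ₂' (μ v) ⟨⟨v, hv⟩, rfl⟩ hμv).trans ?_)
          exact orbit_le (map_mem hμ _ (self_mem_orbit v))

end Ideals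

end Pool.Agent.VRing
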