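import Mathlib
import Pool.Agent.VRing.Core

/-!
# Right V-rings are right weakly regular; primitivity of prime right weakly regular rings
-/

open MulOpposite

namespace Pool.Agent.VRing

universe u v

variable {R : Type u} [Ring R]

/-- `R` is a right V-ring: every simple right `R`-module is injective. -/
def RightV (R : Type u) [Ring R] : Prop :=
  ∀ (M : Type u) [AddCommGroup M] [Module Rᵐᵒᵖ M],
    IsSimpleModule Rᵐᵒᵖ M → Module.Injective Rᵐᵒᵖ M

/-- In a right V-ring, every element outside a right ideal is outside some maximal right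
ideal containing the given one. -/
lemma RightV.exists_maximal (hV : RightV R) (I : Submodule Rᵐᵒᵖ R) (a : R) (ha : a ∉ I) :
    ∃ M : Submodule Rᵐᵒᵖ R, IsCoatom M ∧ I ≤ M ∧ a ∉ M := by
  obtain ⟨L, hIL, hL⟩ := zorn_le_nonempty₀ {L : Submodule Rᵐᵒᵖ R | a ∉ L} (by
    intro c hc hchain y hy
    refine ⟨sSup c, ?_, fun z hz => le_sSup hz⟩
    intro hmem
    rw [Submodule.mem_sSup_of_directed ⟨y, hy⟩ hchain.directedOn] at hmem
    obtain ⟨A, hA, haA⟩ := hmem
    exact hc hA haA) I ha
  have haL : a ∉ L := hL.prop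
  let a' : R ⧸ L := L.mkQ a
  have ha' : a' ≠ 0 := by
    intro h
    apply haL
    simpa [a'] using h
  have hatom : IsAtom (Submodule.span Rᵐᵒᵖ {a'}) := by
    constructor
    · rw [Ne, Submodule.span_singleton_eq_bot]; exact ha'
    · intro N hN
      by_contra hN0
      have h1 : L < N.comap L.mkQ := by
        refine lt_of_le_of_ne (fun x hx => ?_) (fun h => hN0 ?_)
        · have : L.mkQ x = 0 := by simpa using hx
          rw [Submodule.mem_comap, this]; exact N.zero_mem
        · rw [eq_bot_iff]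
          intro y hy
          obtain ⟨x, rfl⟩ := L.mkQ_surjective y
          have : x ∈ N.comap L.mkQ := hy
          rw [← h] at this
          simpa using this
      have h2 : a ∈ N.comap L.mkQ := by
        by_contra h3
        exact absurd (hL.le_of_ge h3 h1.le) (not_le_of_gt h1)
      have h3 : Submodule.span Rᵐᵒᵖ {a'} ≤ N := by
        rw [Submodule.span_singleton_le_iff_mem]; exact h2
      exact absurd hN (not_lt_of_ge h3)
  have hsimple : IsSimpleModule Rᵐᵒᵖ (Submodule.span Rᵐᵒᵖ {a'}) :=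
    isSimpleModule_iff_isAtom.mpr hatom
  have hinj := hV (Submodule.span Rᵐᵒᵖ {a'}) hsimple
  obtain ⟨h, hh⟩ := hinj.out (Submodule.span Rᵐᵒᵖ {a'}).subtype
    (Submodule.injective_subtype _) LinearMap.id
  let g : R →ₗ[Rᵐᵒᵖ] (Submodule.span Rᵐᵒᵖ {a'}) := h.comp L.mkQ
  have hgsurj : Function.Surjective g := by
    intro y
    obtain ⟨x, hx⟩ := L.mkQ_surjective (y : R ⧸ L)
    refine ⟨x, ?_⟩
    change h (L.mkQ x) = y
    rw [hx]
    simpa using hh y
  refine ⟨LinearMap.ker g, ?_, ?_, ?_⟩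
  · rw [← isSimpleModule_iff_isCoatom]
    exact IsSimpleModule.congr (g.quotKerEquivOfSurjective hgsurj)
  · refine hIL.trans (fun x hx => ?_)
    rw [LinearMap.mem_ker]
    change h (L.mkQ x) = 0
    have : L.mkQ x = 0 := by simpa using hx
    rw [this, map_zero]
  · rw [LinearMap.mem_ker]
    change ¬ h (L.mkQ a) = 0
    have h1 := hh ⟨a', Submodule.mem_span_singleton_self a'⟩
    have h2 : h (L.mkQ a) = ⟨a', Submodule.mem_span_singleton_self a'⟩ := h1
    rw [h2]
    intro h3
    exact ha' (by simpa using congrArg Subtype.val h3)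

/-- `R` is right weakly regular. -/
def WeaklyRegular (R : Type u) [Ring R] : Prop :=
  ∀ a : R, a ∈ Submodule.span Rᵐᵒᵖ {y : R | ∃ r, y = a * r * a}

lemma RightV.weaklyRegular (hV : RightV R) : WeaklyRegular R := by
  intro a
  by_contra ha
  obtain ⟨M, hM, hle, haM⟩ := hV.exists_maximal _ a ha
  have h1 : M ⊔ Submodule.span Rᵐᵒᵖ {a} = ⊤ := by
    apply hM.2
    refine lt_of_le_of_ne le_sup_left (fun h => haM ?_)
    rw [h]
    exact Submodule.mem_sup_right (Submodule.mem_span_singleton_self a)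
  have h2 : (1 : R) ∈ M ⊔ Submodule.span Rᵐᵒᵖ {a} := by rw [h1]; trivial
  obtain ⟨m, hm, y, hy, hmy⟩ := Submodule.mem_sup.mp h2
  obtain ⟨r, rfl⟩ := Submodule.mem_span_singleton.mp hy
  apply haM
  have h3 : a = m * a + a * r.unop * a := by
    have h4 := congrArg (fun z => z * a) hmy
    simp only [one_mul, add_mul] at h4
    exact h4.symm
  rw [h3]
  refine M.add_mem ?_ (hle (Submodule.subset_span ⟨r.unop, rfl⟩))
  exact M.smul_mem (op a) hm

/-- In a right weakly regular ring, every `a` satisfies `a = a * x` with `x ∈ R a R`. -/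
lemma WeaklyRegular.exists_local_unit (h : WeaklyRegular R) (a : R) :
    ∃ x ∈ TwoSidedIdeal.span {a}, a = a * x := by
  have key : ∀ y ∈ Submodule.span Rᵐᵒᵖ {y : R | ∃ r, y = a * r * a},
      ∃ x ∈ TwoSidedIdeal.span {a}, y = a * x := by
    intro y hy
    induction hy using Submodule.span_induction with
    | mem y hy =>
      obtain ⟨r, rfl⟩ := hy
      exact ⟨r * a, TwoSidedIdeal.mul_mem_left _ _ _
        (TwoSidedIdeal.subset_span (Set.mem_singleton a)), by rw [mul_assoc]⟩
    | zero => exact ⟨0, TwoSidedIdeal.zero_mem _, by simp⟩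
    | add x y _ _ hx hy =>
      obtain ⟨x', hx', rfl⟩ := hx
      obtain ⟨y', hy', rfl⟩ := hy
      exact ⟨x' + y', TwoSidedIdeal.add_mem _ hx' hy', by rw [mul_add]⟩
    | smul s x _ hx =>
      obtain ⟨x', hx', rfl⟩ := hx
      exact ⟨x' * s.unop, TwoSidedIdeal.mul_mem_right _ _ _ hx', by
        rw [← mul_assoc]; rfl⟩
  exact key a (h a)

lemma WeaklyRegular.fullyIdempotent (h : WeaklyRegular R) : FullyIdempotent R := by
  intro I x hx
  obtain ⟨y, hy, hxy⟩ := h.exists_local_unit x
  have hyI : y ∈ I := by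
    have : TwoSidedIdeal.span {x} ≤ I := by
      rw [TwoSidedIdeal.span_le]
      simpa using hx
    exact this hy
  exact AddSubgroup.subset_closure ⟨x, hx, y, hyI, hxy⟩

/-- A prime right weakly regular ring with a countable coinitial family of nonzero ideals is
right primitive. -/
theorem primitive_of_coinitial [Nontrivial R] (hw : WeaklyRegular R)
    (hprime : ∀ a b : R, (∀ r : R, a * r * b = 0) → a = 0 ∨ b = 0)
    (J : ℕ → TwoSidedIdeal R) (hJ : ∀ n, J n ≠ ⊥)
    (hco : ∀ I : TwoSidedIdeal R, I ≠ ⊥ → ∃ n, J n ≤ I) :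
    ∃ (M : Type u) (_ : AddCommGroup M) (_ : Module Rᵐᵒᵖ M),
      IsSimpleModule Rᵐᵒᵖ M ∧ ∀ r : Rᵐᵒᵖ, (∀ m : M, r • m = 0) → r = 0 := by
  classical
  -- one step of the construction
  have hstep : ∀ (n : ℕ) (b : {b : R // b ≠ 0}), ∃ (b' : {b : R // b ≠ 0}) (r x : R),
      (b' : R) = r * b ∧ x ∈ J n ∧ (b' : R) = b' * x := by
    intro n b
    obtain ⟨c, hc, hc0⟩ : ∃ c ∈ J n, c ≠ 0 := by
      by_contra hcon
      push Not at hcon
      apply hJ n
      ext x
      rw [TwoSidedIdeal.mem_bot]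
      exact ⟨fun hx => hcon x hx, fun hx => hx ▸ (J n).zero_mem⟩
    have : ∃ r, c * r * b ≠ 0 := by
      by_contra hcon
      push Not at hcon
      rcases hprime c b hcon with h | h
      · exact hc0 h
      · exact b.2 h
    obtain ⟨r, hr⟩ := this
    obtain ⟨x, hx, hxx⟩ := hw.exists_local_unit (c * r * b)
    refine ⟨⟨c * r * b, hr⟩, c * r, x, rfl, ?_, hxx⟩
    have hmem : c * r * b ∈ J n := (J n).mul_mem_right _ _ ((J n).mul_mem_right _ _ hc)
    have hle : TwoSidedIdeal.span {c * r * (b : R)} ≤ J n := by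
      rw [TwoSidedIdeal.span_le]
      simpa using hmem
    exact hle hx
  choose nb rr xx h1 h2 h3 using hstep
  let b : ℕ → {b : R // b ≠ 0} := fun n =>
    Nat.rec (motive := fun _ => {b : R // b ≠ 0}) ⟨1, one_ne_zero⟩ (fun n b => nb n b) n
  have hb : ∀ n, b (n + 1) = nb n (b n) := fun n => rfl
  have hmono : ∀ n s, (b n : R) * s = 0 → (b (n + 1) : R) * s = 0 := by
    intro n s hs
    rw [hb, h1, mul_assoc, hs, mul_zero]
  have hmono' : ∀ n m, n ≤ m → ∀ s, (b n : R) * s = 0 → (b m : R) * s = 0 := by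
    intro n m hnm
    induction hnm with
    | refl => intro s hs; exact hs
    | step _ ih => intro s hs; exact hmono _ s (ih s hs)
  let N : Submodule Rᵐᵒᵖ R :=
    { carrier := {s | ∃ n, (b n : R) * s = 0}
      add_mem' := by
        rintro s t ⟨n, hn⟩ ⟨m, hm⟩
        refine ⟨max n m, ?_⟩
        rw [mul_add, hmono' n _ (le_max_left _ _) s hn, hmono' m _ (le_max_right _ _) t hm,
          add_zero]
      zero_mem' := ⟨0, mul_zero _⟩
      smul_mem' := by
        rintro r s ⟨n, hn⟩
        refine ⟨n, ?_⟩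
        change (b n : R) * (s * r.unop) = 0
        rw [← mul_assoc, hn, zero_mul] }
  have hN : N ≠ ⊤ := by
    intro h
    have : (1 : R) ∈ N := by rw [h]; trivial
    obtain ⟨n, hn⟩ := this
    rw [mul_one] at hn
    exact (b n).2 hn
  have hxN : ∀ n, 1 - xx n (b n) ∈ N := by
    intro n
    refine ⟨n + 1, ?_⟩
    rw [mul_sub, mul_one, hb, ← h3, sub_self]
  have hfin : Module.Finite Rᵐᵒᵖ R := by
    refine ⟨⟨{1}, ?_⟩⟩
    rw [eq_top_iff]
    intro s _
    rw [Finset.coe_singleton]
    exact Submodule.mem_span_singleton.mpr ⟨op s, by simp⟩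
  obtain ⟨M, hM, hNM⟩ := (eq_top_or_exists_le_coatom N).resolve_left hN
  refine ⟨R ⧸ M, inferInstance, inferInstance, isSimpleModule_iff_isCoatom.mpr hM, ?_⟩
  -- the annihilator
  let P : TwoSidedIdeal R := TwoSidedIdeal.mk' {r : R | ∀ m : R ⧸ M, op r • m = 0}
    (by intro m; simp)
    (by
      intro r s hr hs m
      rw [op_add, add_smul, hr, hs, add_zero])
    (by
      intro r hr m
      rw [op_neg, neg_smul, hr, neg_zero])
    (by
      intro r s hs m
      rw [op_mul, mul_smul, hs])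
    (by
      intro r s hr m
      rw [op_mul, mul_smul, hr, smul_zero])
  have hP : P = ⊥ := by
    by_contra hP0
    obtain ⟨n, hn⟩ := hco P hP0
    have h4 : xx n (b n) ∈ P := hn (h2 n (b n))
    have h5 : ∀ m : R ⧸ M, op (xx n (b n)) • m = 0 := by
      simpa [P] using h4
    have h6 := h5 (M.mkQ 1)
    rw [← map_smul] at h6
    have h7 : xx n (b n) ∈ M := by
      have : op (xx n (b n)) • (1 : R) = xx n (b n) := by simp
      rw [this] at h6
      simpa using h6
    apply hM.1
    rw [eq_top_iff]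
    intro s _
    have h8 : (1 : R) ∈ M := by
      have := M.add_mem (hNM (hxN n)) h7
      simpa using this
    have := M.smul_mem (op s) h8
    simpa using this
  intro r hr
  have h4 : r.unop ∈ P := by
    simp only [P, TwoSidedIdeal.mem_mk']
    simpa using hr
  rw [hP, TwoSidedIdeal.mem_bot] at h4
  exact unop_injective (by simpa using h4)

/-- The centre of a prime fully idempotent ring is a field. -/
lemma isField_center [Nontrivial R] (hidem : FullyIdempotent R)
    (hprime : ∀ a b : R, (∀ r : R, a * r * b = 0) → a = 0 ∨ b = 0) :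
    IsField (Subring.center R) := by
  refine ⟨⟨0, 1, zero_ne_one⟩, mul_comm, ?_⟩
  intro c hc
  have hc0 : (c : R) ≠ 0 := fun h => hc (Subtype.ext h)
  have hcc : ∀ r : R, (c : R) * r = r * c := fun r => (Subring.mem_center_iff.mp c.2 r).symm
  -- the ideal `c R`
  let I : TwoSidedIdeal R := TwoSidedIdeal.mk' {x | ∃ r, x = c * r}
    ⟨0, by simp⟩
    (by rintro _ _ ⟨r, rfl⟩ ⟨s, rfl⟩; exact ⟨r + s, by rw [mul_add]⟩)
    (by rintro _ ⟨r, rfl⟩; exact ⟨-r, by rw [mul_neg]⟩)
    (by rintro x _ ⟨r, rfl⟩; exact ⟨x * r, by rw [← mul_assoc, ← hcc, mul_assoc]⟩)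
    (by rintro _ x ⟨r, rfl⟩; exact ⟨r * x, by rw [mul_assoc]⟩)
  have hI : ∀ x, x ∈ I ↔ ∃ r, x = c * r := by
    intro x; simp [I]
  have hcI : (c : R) ∈ I := (hI _).mpr ⟨1, by simp⟩
  have h1 : ∀ y ∈ AddSubgroup.closure {z : R | ∃ a ∈ I, ∃ b ∈ I, z = a * b},
      ∃ r, y = c * (c * r) := by
    intro y hy
    induction hy using AddSubgroup.closure_induction with
    | mem y hy =>
      obtain ⟨a, ha, b, hb, rfl⟩ := hy
      obtain ⟨r, rfl⟩ := (hI _).mp ha
      obtain ⟨s, rfl⟩ := (hI _).mp hb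
      refine ⟨r * s, ?_⟩
      rw [mul_assoc, ← mul_assoc r, ← hcc r, mul_assoc]
    | zero => exact ⟨0, by simp⟩
    | add x y _ _ hx hy =>
      obtain ⟨r, rfl⟩ := hx
      obtain ⟨s, rfl⟩ := hy
      exact ⟨r + s, by rw [mul_add, mul_add]⟩
    | neg x _ hx =>
      obtain ⟨r, rfl⟩ := hx
      exact ⟨-r, by rw [mul_neg, mul_neg]⟩
  obtain ⟨r, hr⟩ := h1 _ (hidem I c hcI)
  have hcancel : ∀ x : R, (c : R) * x = 0 → x = 0 := by
    intro x hx
    refine (hprime (c : R) x (fun s => ?_)).resolve_left hc0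
    rw [hcc, mul_assoc, hx, mul_zero]
  have hcr : (c : R) * r = 1 := by
    have : (c : R) * (c * r - 1) = 0 := by rw [mul_sub, ← hr, mul_one, sub_self]
    exact sub_eq_zero.mp (hcancel _ this)
  have hrc : r ∈ Subring.center R := by
    rw [Subring.mem_center_iff]
    intro s
    apply sub_eq_zero.mp
    apply hcancel
    rw [mul_sub, ← mul_assoc, ← mul_assoc, hcr, one_mul, hcc s, mul_assoc, hcr, mul_one, sub_self]
  exact ⟨⟨r, hrc⟩, Subtype.ext hcr⟩

/-- **Main theorem.**  Let `R` be a prime right V-ring having a countably generated `Z(R)`-submodule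
which meets every nonzero two-sided ideal nontrivially.  Then `R` is right primitive. -/
theorem primitive_of_countable (R : Type u) [Ring R] [Nontrivial R]
    (hprime : ∀ a b : R, (∀ r : R, a * r * b = 0) → a = 0 ∨ b = 0) (hV : RightV R)
    (S : Set R) (hS : S.Countable)
    (hmeet : ∀ I : TwoSidedIdeal R, I ≠ ⊥ →
      ∃ x ∈ Submodule.span (Subring.center R) S, x ∈ I ∧ x ≠ 0) :
    ∃ (M : Type u) (_ : AddCommGroup M) (_ : Module Rᵐᵒᵖ M),
      IsSimpleModule Rᵐᵒᵖ M ∧ ∀ r : Rᵐᵒᵖ, (∀ m : M, r • m = 0) → r = 0 := by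
  classical
  have hw := hV.weaklyRegular
  have hidem := hw.fullyIdempotent
  let _ : Field (Subring.center R) := (isField_center hidem hprime).toField
  obtain ⟨s, hs⟩ : ∃ s : ℕ → R, S ⊆ Set.range s := by
    by_cases hne : S.Nonempty
    · obtain ⟨s, hs⟩ := hS.exists_eq_range hne
      exact ⟨s, hs.le⟩
    · exact ⟨fun _ => 0, by rw [Set.not_nonempty_iff_eq_empty.mp hne]; exact Set.empty_subset _⟩
  let V : ℕ → Submodule (Subring.center R) R := fun n =>
    Submodule.span (Subring.center R) (s '' (Finset.range n : Set ℕ))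
  have hVfin : ∀ n, FiniteDimensional (Subring.center R) (V n) := fun n =>
    FiniteDimensional.span_of_finite _ ((Finset.finite_toSet _).image _)
  have hJ : ∀ n, ∃ J : TwoSidedIdeal R, J ≠ ⊥ ∧
      ∀ v ∈ V n, v ≠ 0 → J ≤ orbit (Subring.center R) v := fun n =>
    exists_common_ideal hprime hidem _ (V n) le_rfl
  choose J hJ0 hJV using hJ
  refine primitive_of_coinitial hw hprime J hJ0 (fun I hI => ?_)
  obtain ⟨x, hx, hxI, hx0⟩ := hmeet I hI
  have hxV : ∃ n, x ∈ V n := by
    have h1 : x ∈ Submodule.span (Subring.center R) (Set.range s) := Submodule.span_mono hs hx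
    have hmono : Monotone V := fun m n hmn =>
      Submodule.span_mono (Set.image_mono (by simpa using hmn))
    have h2 : Submodule.span (Subring.center R) (Set.range s) ≤ ⨆ n, V n := by
      rw [Submodule.span_le]
      rintro _ ⟨i, rfl⟩
      exact Submodule.mem_iSup_of_mem (i + 1)
        (Submodule.subset_span ⟨i, by simp, rfl⟩)
    have h3 := h2 h1
    rwa [Submodule.mem_iSup_of_directed _ hmono.directed_le] at h3
  obtain ⟨n, hn⟩ := hxV
  exact ⟨n, (hJV n x hn hx0).trans (orbit_le hxI)⟩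

end Pool.Agent.VRing
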